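import Pool.Agent.TBV.ATT
import Pool.Agent.TBV.BND
import Pool.Agent.TBV.CLS
import Pool.Agent.TBV.COL
import Pool.Agent.TBV.CPT
import Pool.Agent.TBV.DOT
import Pool.Agent.TBV.EQU
import Pool.Agent.TBV.EXT
import Pool.Agent.TBV.FAR
import Pool.Agent.TBV.FIN
import Pool.Agent.TBV.GRO
import Pool.Agent.TBV.IC
import Pool.Agent.TBV.ISO
import Pool.Agent.TBV.LIP
import Pool.Agent.TBV.MIN
import Pool.Agent.TBV.NOS
import Pool.Agent.TBV.PTD
import Pool.Agent.TBV.RIG
import Pool.Agent.TBV.SCL
import Pool.Agent.TBV.SYM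

/-!
# MP_47565f_mp: a gap around the virial locus for the class of zero angular momentum

There is a universal constant `c > 0` such that every complete solution (free of collisions,
defined for all times) of the equal mass planar three-body problem of energy `-E < 0` and zero
angular momentum leaves the band `|U - 2 E| / 2 ≤ c E`. In particular the infimum `epsStar E` over
the periodic solutions is positive. Both infima scale linearly in `E`, and the infimum over all
complete solutions is attained as soon as it is smaller than `E / 4`.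
-/

set_option autoImplicit false

open scoped ENNReal

namespace Pool.Agent.Results.MP_47565f_mp.VirialBand

open Pool.Agent.TBV

theorem result :
    ∃ c : ℝ, 0 < c ∧ ∀ E : ℝ, 0 < E →
      (∀ q v, Sol E q v → ∃ t, c * E < |U (q t) - 2 * E| / 2) ∧
      ENNReal.ofReal (c * E) ≤ epsAll E ∧ epsAll E ≤ epsStar E ∧
      epsAll E = ENNReal.ofReal E * epsAll 1 ∧ epsStar E = ENNReal.ofReal E * epsStar 1 ∧
      (epsAll E < ENNReal.ofReal (E / 4) → ∃ q v, Sol E q v ∧ dev E q = epsAll E) := by
  have hIC : St_IC := thm_IC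
  have hCPT : St_CPT := thm_CPT thm_BND thm_LIP (thm_GRO thm_BND thm_LIP)
  have hDOT : St_DOT := thm_DOT thm_RIG thm_COL
  have hESC : St_ESC := thm_ESC thm_PERM (thm_FAR thm_BND thm_CONC) (thm_CLS thm_BND)
  have hATT : St_ATT := thm_ATT hESC thm_SHIFT hCPT
  have hNOS : St_NOS := thm_NOS hIC (thm_PTD hIC) (thm_EQU hIC (thm_PTD hIC) hDOT)
    (thm_EXmin thm_PERM thm_SHIFT hCPT) (thm_EXmax thm_PERM thm_SHIFT hCPT)
    (thm_MIN hDOT thm_ISO thm_POL2) (thm_MAX hDOT thm_ISO thm_POL1)
  exact thm_FIN (thm_POS hATT hNOS) thm_EPS hATT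

end Pool.Agent.Results.MP_47565f_mp.VirialBand
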